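import Pool.Agent.Work.MP_1c7b0d_lh60.BIN

/-! Scalar inequalities with slack (helper74), for `K` not dividing `d`. -/

open Real Set Filter Topology

namespace LH.Binet

/-- `(e-1)^2 ≤ 1.05 (e-1-log e)` on `(0,1/3]`. -/
lemma reg5a {e : ℝ} (he : 0 < e) (he3 : e ≤ 1 / 3) :
    (e - 1) ^ 2 ≤ 1.05 * (e - 1 - Real.log e) := by
  have h1 : Real.log e ≤ Real.log (1 / 3) + e / (1 / 3) - 1 := log_tangent (by norm_num) he
  have h2 : Real.log (1 / 3) = -Real.log 3 := by
    rw [one_div, Real.log_inv]
  have h3 : (1.093 : ℝ) ≤ Real.log 3 := by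
    have h4 := hB_lower (x := 2) (by norm_num)
    have h5 := Real.log_two_gt_d9
    norm_num at h4 ⊢
    linarith
  rw [h2] at h1
  norm_num at h1 ⊢
  nlinarith

/-- `-log (2/5) ≥ 0.9` -/
lemma log_num3 : (0.91 : ℝ) ≤ -Real.log (2 / 5) := by
  have e1 : -Real.log (2 / 5) = (Real.log (4 + 1) - Real.log 4) + Real.log 2 := by
    have e2 : Real.log (2 / 5) = Real.log 2 - Real.log 5 :=
      Real.log_div (by norm_num) (by norm_num)
    have e3 : Real.log 4 = Real.log 2 + Real.log 2 := by
      rw [← Real.log_mul (by norm_num) (by norm_num)]; norm_num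
    rw [e2, e3]
    norm_num
    ring
  have h4 := hB_lower (x := 4) (by norm_num)
  have h5 := Real.log_two_gt_d9
  rw [e1]
  norm_num at h4 ⊢
  linarith

/-- `(e-1)^2 ≤ (7/2) e (e-1-log e)` for `e ≥ 1/3`. -/
lemma reg5b {e : ℝ} (he3 : 1 / 3 ≤ e) :
    (e - 1) ^ 2 ≤ 7 / 2 * e * (e - 1 - Real.log e) := by
  have he : 0 < e := by linarith
  rcases le_total e (2 / 5) with h | h
  · have h1 : Real.log e ≤ Real.log (2 / 5) + e / (2 / 5) - 1 := log_tangent (by norm_num) he
    have h2 := log_num3
    have h3 : 0.91 - 3 / 2 * e ≤ e - 1 - Real.log e := by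
      norm_num at h1 ⊢
      linarith
    have h4 : (e - 1) ^ 2 ≤ 7 / 2 * (1 / 3) * (0.91 - 3 / 2 * e) := by
      norm_num
      nlinarith
    have h5 : 7 / 2 * (1 / 3) * (0.91 - 3 / 2 * e) ≤ 7 / 2 * (1 / 3) * (e - 1 - Real.log e) := by
      linarith
    have h6 : 0 ≤ e - 1 - Real.log e := log_bd he
    nlinarith
  · have hder : ∀ x : ℝ, 0 < x → HasDerivAt (fun s : ℝ => 5 / 2 * s - 3 / 2 - (1 / s)
        - 7 / 2 * Real.log s) (5 / 2 * 1 - (-1 / x ^ 2) - 7 / 2 * (1 / x)) x := by
      intro x hx
      have a1 : HasDerivAt (fun s : ℝ => 5 / 2 * s - 3 / 2) (5 / 2 * 1) x :=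
        ((hasDerivAt_id x).const_mul (5 / 2)).sub_const _
      have a2 : HasDerivAt (fun s : ℝ => (1 / s)) (-1 / x ^ 2) x := d_inv hx.ne'
      have a3 : HasDerivAt (fun s : ℝ => 7 / 2 * Real.log s) (7 / 2 * (1 / x)) x := by
        simpa using (Real.hasDerivAt_log hx.ne').const_mul (7 / 2)
      exact (a1.sub a2).sub a3
    have e1 : ∀ x : ℝ, 0 < x → 5 / 2 * 1 - (-1 / x ^ 2) - 7 / 2 * (1 / x)
        = (5 * x - 2) * (x - 1) / (2 * x ^ 2) := by
      intro x hx
      field_simp
      ring
    have key : 0 ≤ 5 / 2 * e - 3 / 2 - (1 / e) - 7 / 2 * Real.log e := by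
      rcases le_total e 1 with h' | h'
      · have hanti : AntitoneOn (fun s : ℝ => 5 / 2 * s - 3 / 2 - (1 / s)
          - 7 / 2 * Real.log s) (Icc (2 / 5) 1) := by
          refine antitoneOn_of_deriv_nonpos (convex_Icc _ _) ?_ ?_ ?_
          · intro x hx
            exact (hder x (by linarith [hx.1])).continuousAt.continuousWithinAt
          · intro x hx
            rw [interior_Icc] at hx
            exact (hder x (by linarith [hx.1])).differentiableAt.differentiableWithinAt
          · intro x hx
            rw [interior_Icc] at hx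
            have hx0 : 0 < x := by linarith [hx.1]
            rw [(hder x hx0).deriv, e1 x hx0]
            apply div_nonpos_of_nonpos_of_nonneg _ (by positivity)
            nlinarith [hx.1, hx.2]
        have := hanti ⟨h, h'⟩ (show (1 : ℝ) ∈ Icc (2 / 5) 1 by constructor <;> norm_num) h'
        norm_num at this
        norm_num
        linarith
      · have hmono : MonotoneOn (fun s : ℝ => 5 / 2 * s - 3 / 2 - (1 / s)
          - 7 / 2 * Real.log s) (Ici 1) := by
          refine monotoneOn_of_deriv_nonneg (convex_Ici _) ?_ ?_ ?_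
          · intro x hx
            have hx1 : (1 : ℝ) ≤ x := hx
            exact (hder x (by linarith)).continuousAt.continuousWithinAt
          · intro x hx
            rw [interior_Ici] at hx
            have hx1 : (1 : ℝ) < x := hx
            exact (hder x (by linarith)).differentiableAt.differentiableWithinAt
          · intro x hx
            rw [interior_Ici] at hx
            have hx1 : (1 : ℝ) < x := hx
            have hx0 : 0 < x := by linarith
            rw [(hder x hx0).deriv, e1 x hx0]
            apply div_nonneg _ (by positivity)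
            nlinarith
        have := hmono (show (1 : ℝ) ∈ Ici (1 : ℝ) by simp) (show e ∈ Ici (1 : ℝ) from h') h'
        norm_num at this
        norm_num
        linarith
    have h2 : 7 / 2 * e * (e - 1 - Real.log e) - (e - 1) ^ 2
        = e * (5 / 2 * e - 3 / 2 - (1 / e) - 7 / 2 * Real.log e) := by
      field_simp
      ring
    have h3 : 0 ≤ e * (5 / 2 * e - 3 / 2 - (1 / e) - 7 / 2 * Real.log e) := by positivity
    linarith

lemma reg5 {u e : ℝ} (hu : 3 / 10 ≤ u) (he : 0 < e) (heu : e ≤ u) :
    (e - 1) ^ 2 ≤ 7 / 2 * u * (e - 1 - Real.log e) := by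
  have h0 := log_bd he
  rcases le_total e (1 / 3) with h | h
  · have h1 := reg5a he h
    nlinarith
  · have h1 := reg5b h
    nlinarith

/-- the quadratic split with the constants `1/7`, `1/5` -/
lemma split5 {m c u : ℝ} (hm : 0 < m) (hu : 0 < u) :
    (u / m - 1) ^ 2 / (12 * u) ≤ (c * u - 1) ^ 2 / (7 * u) + u / 5 * (c - 1 / m) ^ 2 := by
  have e1 : (c * u - 1) ^ 2 / (7 * u) + u / 5 * (c - 1 / m) ^ 2
      - (u / m - 1) ^ 2 / (12 * u)
      = (5 * (c * u - 1) + 7 * (c * u - u / m)) ^ 2 / (420 * u) := by
    field_simp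
    ring
  have e2 : 0 ≤ (5 * (c * u - 1) + 7 * (c * u - u / m)) ^ 2 / (420 * u) := by positivity
  linarith

/-- **The scalar inequality with `1/5`.** -/
theorem scalar5 {m c u : ℝ} (hm : 1 ≤ m) (hc0 : 0 < c) (hc1 : c ≤ 1) (hu : 0 < u) :
    mu u - mu m - deriv mu m * (u - m)
      ≤ 1 / 2 * (c * u - 1 - Real.log (c * u)) + u / 5 * (c - 1 / m) ^ 2 := by
  have hm0 : 0 < m := by linarith
  have he : 0 < c * u := by positivity
  have heu : c * u ≤ u := by nlinarith
  rcases le_total u (3 / 10) with h | h
  · have h1 := mu_small hu h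
    have h2 : Real.log u - Real.log (c * u) = -Real.log c := by
      rw [Real.log_mul hc0.ne' hu.ne']; ring
    have h3 : Real.log c ≤ c - 1 := Real.log_le_sub_one_of_pos hc0
    have h4 : 0 ≤ mu m := mu_nonneg hm0
    have h5 : 0 ≤ deriv mu m * (u - m) :=
      mul_nonneg_of_nonpos_of_nonpos (deriv_mu_nonpos hm0) (by linarith)
    have h6 : 0 ≤ u / 5 * (c - 1 / m) ^ 2 := by positivity
    have h7 : u - c * u ≤ - Real.log c := by nlinarith
    linarith
  · have h1 := bregman hm0 hu
    have h2 := reg5 h he heu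
    have h3 := split5 (c := c) hm0 hu
    have h4 : (c * u - 1) ^ 2 / (7 * u) ≤ 1 / 2 * (c * u - 1 - Real.log (c * u)) := by
      rw [div_le_iff₀ (by positivity)]
      linarith
    linarith

/-- `-log c ≥ 2` for `c ≤ 1/10` -/
lemma log_num4 {c : ℝ} (hc0 : 0 < c) (hc1 : c ≤ 1 / 10) : (2 : ℝ) ≤ -Real.log c := by
  have h1 : Real.log c ≤ Real.log (1 / 10) := Real.log_le_log hc0 hc1
  have e2 : Real.log (1 / 10) = -(3 * Real.log 2 + (Real.log (4 + 1) - Real.log 4)) := by
    have e3 : Real.log (1 / 10) = -Real.log 10 := by rw [one_div, Real.log_inv]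
    have e4 : Real.log 10 = Real.log 2 + Real.log 5 := by
      rw [← Real.log_mul (by norm_num) (by norm_num)]; norm_num
    have e5 : Real.log 4 = Real.log 2 + Real.log 2 := by
      rw [← Real.log_mul (by norm_num) (by norm_num)]; norm_num
    rw [e3, e4, e5]
    norm_num
    ring
  have h4 := hB_lower (x := 4) (by norm_num)
  have h5 := Real.log_two_gt_d9
  rw [e2] at h1
  norm_num at h4 h1 ⊢
  linarith

/-- `e - 1 - log e ≥ (e-1)^2/2` for `e ≤ 1` -/
lemma log_quad {e : ℝ} (he : 0 < e) (he1 : e ≤ 1) :
    (e - 1) ^ 2 / 2 ≤ e - 1 - Real.log e := by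
  have hder : ∀ x : ℝ, 0 < x → HasDerivAt (fun s : ℝ => s - 1 - Real.log s - (s - 1) ^ 2 / 2)
      (1 - 1 / x - (2 * (x - 1)) / 2) x := by
    intro x hx
    have a1 : HasDerivAt (fun s : ℝ => s - 1) 1 x := (hasDerivAt_id x).sub_const _
    have a3 : HasDerivAt (fun s : ℝ => Real.log s) (1 / x) x := by
      simpa using Real.hasDerivAt_log hx.ne'
    have a4 : HasDerivAt (fun s : ℝ => (s - 1) ^ 2 / 2) ((2 * (x - 1)) / 2) x := by
      simpa using (a1.pow 2).div_const 2
    exact (a1.sub a3).sub a4
  have hanti : AntitoneOn (fun s : ℝ => s - 1 - Real.log s - (s - 1) ^ 2 / 2) (Ioc 0 1) := by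
    refine antitoneOn_of_deriv_nonpos (convex_Ioc _ _) ?_ ?_ ?_
    · intro x hx
      exact (hder x hx.1).continuousAt.continuousWithinAt
    · intro x hx
      rw [interior_Ioc] at hx
      exact (hder x hx.1).differentiableAt.differentiableWithinAt
    · intro x hx
      rw [interior_Ioc] at hx
      rw [(hder x hx.1).deriv]
      have e1 : 1 - 1 / x - (2 * (x - 1)) / 2 = -((x - 1) ^ 2 / x) := by
        have := hx.1.ne'
        field_simp
        ring
      rw [e1]
      have : 0 ≤ (x - 1) ^ 2 / x := div_nonneg (sq_nonneg _) hx.1.le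
      linarith
  have := hanti ⟨he, he1⟩ (show (1 : ℝ) ∈ Ioc (0 : ℝ) 1 by constructor <;> norm_num) he1
  norm_num at this
  linarith

/-- `e - 1 - log e ≥ (e-1)^2 / (2e)`... weak form on `[1, 2]` and `[2, ∞)` -/
lemma log_quad2 {e : ℝ} (he1 : 1 ≤ e) :
    min ((e - 1) ^ 2) 1 * (3 / 10) ≤ e - 1 - Real.log e := by
  have he : 0 < e := by linarith
  rcases le_total e 2 with h | h
  · have hc : ConcaveOn ℝ (Ioi 0) Real.log := strictConcaveOn_log_Ioi.concaveOn
    -- f(s) = s - 1 - log s - 3/10 (s-1)^2, f' = (s-1)(1/s - 3/5), increasing on [1,5/3], then decreasing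
    have hder : ∀ x : ℝ, 0 < x → HasDerivAt (fun s : ℝ => s - 1 - Real.log s
        - 3 / 10 * (s - 1) ^ 2) (1 - 1 / x - 3 / 10 * (2 * (x - 1))) x := by
      intro x hx
      have a1 : HasDerivAt (fun s : ℝ => s - 1) 1 x := (hasDerivAt_id x).sub_const _
      have a3 : HasDerivAt (fun s : ℝ => Real.log s) (1 / x) x := by
        simpa using Real.hasDerivAt_log hx.ne'
      have a4 : HasDerivAt (fun s : ℝ => 3 / 10 * (s - 1) ^ 2) (3 / 10 * (2 * (x - 1))) x := by
        simpa using (a1.pow 2).const_mul (3 / 10)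
      exact (a1.sub a3).sub a4
    have e1 : ∀ x : ℝ, 0 < x → 1 - 1 / x - 3 / 10 * (2 * (x - 1))
        = (x - 1) * (5 - 3 * x) / (5 * x) := by
      intro x hx
      field_simp
      ring
    have key : 0 ≤ e - 1 - Real.log e - 3 / 10 * (e - 1) ^ 2 := by
      rcases le_total e (5 / 3) with h' | h'
      · have hmono : MonotoneOn (fun s : ℝ => s - 1 - Real.log s - 3 / 10 * (s - 1) ^ 2)
            (Icc 1 (5 / 3)) := by
          refine monotoneOn_of_deriv_nonneg (convex_Icc _ _) ?_ ?_ ?_
          · intro x hx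
            exact (hder x (by linarith [hx.1])).continuousAt.continuousWithinAt
          · intro x hx
            rw [interior_Icc] at hx
            exact (hder x (by linarith [hx.1])).differentiableAt.differentiableWithinAt
          · intro x hx
            rw [interior_Icc] at hx
            have hx0 : 0 < x := by linarith [hx.1]
            rw [(hder x hx0).deriv, e1 x hx0]
            apply div_nonneg _ (by positivity)
            nlinarith [hx.1, hx.2]
        have := hmono (show (1 : ℝ) ∈ Icc (1 : ℝ) (5 / 3) by constructor <;> norm_num)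
          ⟨he1, h'⟩ he1
        norm_num at this
        linarith
      · have hanti : AntitoneOn (fun s : ℝ => s - 1 - Real.log s - 3 / 10 * (s - 1) ^ 2)
            (Icc (5 / 3) 2) := by
          refine antitoneOn_of_deriv_nonpos (convex_Icc _ _) ?_ ?_ ?_
          · intro x hx
            exact (hder x (by linarith [hx.1])).continuousAt.continuousWithinAt
          · intro x hx
            rw [interior_Icc] at hx
            exact (hder x (by linarith [hx.1])).differentiableAt.differentiableWithinAt
          · intro x hx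
            rw [interior_Icc] at hx
            have hx0 : 0 < x := by linarith [hx.1]
            rw [(hder x hx0).deriv, e1 x hx0]
            apply div_nonpos_of_nonpos_of_nonneg _ (by positivity)
            nlinarith [hx.1, hx.2]
        have := hanti ⟨h', h⟩ (show (2 : ℝ) ∈ Icc (5 / 3 : ℝ) 2 by constructor <;> norm_num) h
        have h5 := Real.log_two_lt_d9
        norm_num at this h5
        linarith
    have h2 : min ((e - 1) ^ 2) 1 ≤ (e - 1) ^ 2 := min_le_left _ _
    linarith
  · have h1 : Real.log e ≤ Real.log 2 + e / 2 - 1 := log_tangent (by norm_num) he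
    have h5 := Real.log_two_lt_d9
    have h2 : min ((e - 1) ^ 2) 1 ≤ 1 := min_le_right _ _
    norm_num at h5
    linarith

/-- **The scalar inequality with `1/5` and slack.** -/
theorem scalarL {m c u : ℝ} (hm : 1 ≤ m) (hc0 : 0 < c) (hc1 : c ≤ 1 / 10) (hu : 0 < u) :
    mu u - mu m - deriv mu m * (u - m) + min ((c * u - 1) ^ 2) 1 / 16
      ≤ 1 / 2 * (c * u - 1 - Real.log (c * u)) + u / 5 * (c - 1 / m) ^ 2 := by
  have hm0 : 0 < m := by linarith
  have he : 0 < c * u := by positivity
  have heu : c * u ≤ 1 / 10 * u := by nlinarith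
  have hmin1 : min ((c * u - 1) ^ 2) 1 ≤ 1 := min_le_right _ _
  have hmin2 : min ((c * u - 1) ^ 2) 1 ≤ (c * u - 1) ^ 2 := min_le_left _ _
  have hmin0 : 0 ≤ min ((c * u - 1) ^ 2) 1 := le_min (sq_nonneg _) zero_le_one
  rcases le_total u (3 / 10) with h | h
  · have h1 := mu_small hu h
    have h2 : Real.log u - Real.log (c * u) = -Real.log c := by
      rw [Real.log_mul hc0.ne' hu.ne']; ring
    have h3 := log_num4 hc0 hc1
    have h4 : 0 ≤ mu m := mu_nonneg hm0
    have h5 : 0 ≤ deriv mu m * (u - m) :=
      mul_nonneg_of_nonpos_of_nonpos (deriv_mu_nonpos hm0) (by linarith)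
    have h6 : 0 ≤ u / 5 * (c - 1 / m) ^ 2 := by positivity
    linarith
  · have h1 := bregman hm0 hu
    have h3 := split5 (c := c) hm0 hu
    have h4 : (c * u - 1) ^ 2 / (7 * u) + min ((c * u - 1) ^ 2) 1 / 16
        ≤ 1 / 2 * (c * u - 1 - Real.log (c * u)) := by
      generalize hE : c * u = e at *
      rcases le_total e 1 with h' | h'
      · rcases le_total e (2 / 25) with h'' | h''
        · have h7 : (e - 1) ^ 2 / (7 * u) ≤ 1 / 2 := by
            rw [div_le_iff₀ (by positivity)]
            nlinarith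
          have h8 : Real.log e ≤ Real.log (1 / 3) + e / (1 / 3) - 1 :=
            log_tangent (by norm_num) he
          have h9 : Real.log (1 / 3) = -Real.log 3 := by
            rw [one_div, Real.log_inv]
          have h10 : (1.093 : ℝ) ≤ Real.log 3 := by
            have h4 := hB_lower (x := 2) (by norm_num)
            have h5 := Real.log_two_gt_d9
            norm_num at h4 ⊢
            linarith
          have h11 : Real.log e ≤ Real.log (1 / 10) + e / (1 / 10) - 1 :=
            log_tangent (by norm_num) he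
          have h12 := log_num4 (c := 1 / 10) (by norm_num) le_rfl
          norm_num at h11 h12 ⊢
          linarith
        · have h7 := log_quad he h'
          have h8 : (e - 1) ^ 2 / (7 * u) ≤ (e - 1) ^ 2 * (5 / 28) := by
            rw [div_le_iff₀ (by positivity)]
            have : 1 ≤ 5 / 28 * (7 * u) := by linarith
            nlinarith [sq_nonneg (e - 1)]
          nlinarith [sq_nonneg (e - 1)]
      · have h7 := log_quad2 h'
        have h8 : (e - 1) ^ 2 / (7 * u) ≤ (e - 1) ^ 2 / (70 * e) := by
          apply div_le_div_of_nonneg_left (sq_nonneg _) (by positivity)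
          linarith
        rcases le_total e 2 with h9 | h9
        · have h10 : min ((e - 1) ^ 2) 1 = (e - 1) ^ 2 := by
            apply min_eq_left
            nlinarith
          rw [h10] at h7 ⊢
          have h11 : (e - 1) ^ 2 / (70 * e) ≤ (e - 1) ^ 2 / 70 := by
            apply div_le_div_of_nonneg_left (sq_nonneg _) (by norm_num)
            linarith
          have := sq_nonneg (e - 1)
          linarith
        · have h10 : (e - 1) ^ 2 / (70 * e) ≤ e / 70 := by
            rw [div_le_div_iff₀ (by positivity) (by norm_num)]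
            nlinarith
          have h11 : Real.log e ≤ Real.log 2 + e / 2 - 1 := log_tangent (by norm_num) he
          have h5 := Real.log_two_lt_d9
          norm_num at h5
          linarith
    linarith

end LH.Binet

namespace Pool.LH60.H74

/-- SCA with `1/5` -/
theorem sca5 {m p : ℝ} (hm : 1 ≤ m) (hT : Tang m p) {c e : ℝ} (hc0 : 0 < c) (hc1 : c ≤ 1)
    (he : 0 < e) :
    Real.log e / 2 + mu (e / c) ≤ al m p + (c / 2 + p + (c - 1 / m) ^ 2 / 5) / c * e := by
  have hm0 : 0 < m := by linarith
  have hp := h74_tang_unique hm0 hT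
  have hu : 0 < e / c := by positivity
  have h := LH.Binet.scalar5 hm hc0 hc1 hu
  have hcu : c * (e / c) = e := by field_simp
  rw [hcu, hp] at h
  unfold al
  rw [h74_mu_eq]
  have e1 : (c / 2 + p + (c - 1 / m) ^ 2 / 5) / c * e
      = (c / 2 + p + (c - 1 / m) ^ 2 / 5) * (e / c) := by ring
  rw [e1]
  have e2 : c / 2 * (e / c) = e / 2 := by field_simp
  nlinarith

/-- SCA with `1/5` and slack -/
theorem scal {m p : ℝ} (hm : 1 ≤ m) (hT : Tang m p) {c e : ℝ} (hc0 : 0 < c)
    (hc1 : c ≤ 1 / 10) (he : 0 < e) :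
    Real.log e / 2 + mu (e / c) + min ((e - 1) ^ 2) 1 / 16
      ≤ al m p + (c / 2 + p + (c - 1 / m) ^ 2 / 5) / c * e := by
  have hm0 : 0 < m := by linarith
  have hp := h74_tang_unique hm0 hT
  have hu : 0 < e / c := by positivity
  have h := LH.Binet.scalarL hm hc0 hc1 hu
  have hcu : c * (e / c) = e := by field_simp
  rw [hcu, hp] at h
  unfold al
  rw [h74_mu_eq]
  have e1 : (c / 2 + p + (c - 1 / m) ^ 2 / 5) / c * e
      = (c / 2 + p + (c - 1 / m) ^ 2 / 5) * (e / c) := by ring
  rw [e1]
  have e2 : c / 2 * (e / c) = e / 2 := by field_simp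
  nlinarith

end Pool.LH60.H74
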