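import Mathlib

/-!
Binet function, part 1: the terms `hB x = (x+1/2)(log(x+1)-log x) - 1` of the Gudermann series.
-/

open Real Set Filter Topology

namespace LH.Binet

/-- term of the Gudermann series of the Binet function -/
noncomputable def hB (x : ℝ) : ℝ := (x + 1 / 2) * (Real.log (x + 1) - Real.log x) - 1

/-- `1/(12x(x+1)) - hB x` -/
noncomputable def pB (x : ℝ) : ℝ := (1 / x - 1 / (x + 1)) / 12 - hB x

/-- `log (1+t) - log (1-t) ≥ 2 t`. -/
lemma atanh_lower {t : ℝ} (h0 : 0 ≤ t) (h1 : t < 1) :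
    2 * t ≤ Real.log (1 + t) - Real.log (1 - t) := by
  have key : MonotoneOn (fun s : ℝ => Real.log (1 + s) - Real.log (1 - s) - 2 * s) (Ico 0 1) := by
    have hder : ∀ x ∈ Ico (0 : ℝ) 1,
        HasDerivAt (fun s : ℝ => Real.log (1 + s) - Real.log (1 - s) - 2 * s)
          (1 / (1 + x) - (-1) / (1 - x) - 2 * 1) x := by
      intro x hx
      have hx0 := hx.1
      have hx1 := hx.2
      refine HasDerivAt.sub (HasDerivAt.sub ?_ ?_) ?_
      · exact ((hasDerivAt_id x).const_add 1).log (by simp only [id]; linarith)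
      · exact ((hasDerivAt_id x).const_sub 1).log (by simp only [id]; linarith)
      · exact (hasDerivAt_id x).const_mul 2
    refine monotoneOn_of_deriv_nonneg (convex_Ico 0 1) ?_ ?_ ?_
    · exact fun x hx => (hder x hx).continuousAt.continuousWithinAt
    · intro x hx
      rw [interior_Ico] at hx
      exact (hder x ⟨hx.1.le, hx.2⟩).differentiableAt.differentiableWithinAt
    · intro x hx
      rw [interior_Ico] at hx
      rw [(hder x ⟨hx.1.le, hx.2⟩).deriv]
      have h1x : 0 < 1 - x := by linarith [hx.2]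
      have h2x : 0 < 1 + x := by linarith [hx.1]
      have : 1 / (1 + x) - (-1) / (1 - x) - 2 * 1 = 2 * x ^ 2 / ((1 + x) * (1 - x)) := by
        field_simp
        ring
      rw [this]
      positivity
  have := key (show (0 : ℝ) ∈ Ico 0 1 by simp) (show t ∈ Ico 0 1 from ⟨h0, h1⟩) h0
  simp at this
  linarith

/-- `log (1+t) - log (1-t) ≤ 2 t + (2/3) t^3/(1-t^2)`. -/
lemma atanh_upper {t : ℝ} (h0 : 0 ≤ t) (h1 : t < 1) :
    Real.log (1 + t) - Real.log (1 - t) ≤ 2 * t + (2 / 3) * (t ^ 3 / (1 - t ^ 2)) := by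
  have key : MonotoneOn (fun s : ℝ => 2 * s + (2 / 3) * (s ^ 3 / (1 - s ^ 2))
      - (Real.log (1 + s) - Real.log (1 - s))) (Ico 0 1) := by
    have hder : ∀ x ∈ Ico (0 : ℝ) 1,
        HasDerivAt (fun s : ℝ => 2 * s + (2 / 3) * (s ^ 3 / (1 - s ^ 2))
          - (Real.log (1 + s) - Real.log (1 - s)))
          (2 * 1 + (2 / 3) * ((3 * x ^ 2 * (1 - x ^ 2) - x ^ 3 * (-(2 * x))) / (1 - x ^ 2) ^ 2)
            - (1 / (1 + x) - (-1) / (1 - x))) x := by
      intro x hx
      have hx0 := hx.1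
      have hx1 := hx.2
      have hne : (1 - x ^ 2) ≠ 0 := by nlinarith
      refine HasDerivAt.sub (HasDerivAt.add ?_ ?_) (HasDerivAt.sub ?_ ?_)
      · exact (hasDerivAt_id x).const_mul 2
      · refine HasDerivAt.const_mul _ ?_
        refine HasDerivAt.div ?_ ?_ hne
        · have := hasDerivAt_pow 3 x
          simpa using this
        · have := (hasDerivAt_pow 2 x).const_sub 1
          simpa using this
      · exact ((hasDerivAt_id x).const_add 1).log (by simp only [id]; linarith)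
      · exact ((hasDerivAt_id x).const_sub 1).log (by simp only [id]; linarith)
    refine monotoneOn_of_deriv_nonneg (convex_Ico 0 1) ?_ ?_ ?_
    · exact fun x hx => (hder x hx).continuousAt.continuousWithinAt
    · intro x hx
      rw [interior_Ico] at hx
      exact (hder x ⟨hx.1.le, hx.2⟩).differentiableAt.differentiableWithinAt
    · intro x hx
      rw [interior_Ico] at hx
      rw [(hder x ⟨hx.1.le, hx.2⟩).deriv]
      have h1x : 0 < 1 - x := by linarith [hx.2]
      have h2x : 0 < 1 + x := by linarith [hx.1]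
      have : 2 * 1 + (2 / 3) * ((3 * x ^ 2 * (1 - x ^ 2) - x ^ 3 * (-(2 * x))) / (1 - x ^ 2) ^ 2)
            - (1 / (1 + x) - (-1) / (1 - x)) = (4 / 3) * x ^ 4 / ((1 + x) * (1 - x)) ^ 2 := by
        have e : 1 - x ^ 2 = (1 + x) * (1 - x) := by ring
        rw [e]
        field_simp
        ring
      rw [this]
      positivity
  have := key (show (0 : ℝ) ∈ Ico 0 1 by simp) (show t ∈ Ico 0 1 from ⟨h0, h1⟩) h0
  simp at this
  linarith

lemma log_ratio {x : ℝ} (hx : 0 < x) :
    Real.log (x + 1) - Real.log x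
      = Real.log (1 + 1 / (2 * x + 1)) - Real.log (1 - 1 / (2 * x + 1)) := by
  have h1 : 1 + 1 / (2 * x + 1) = 2 * (x + 1) / (2 * x + 1) := by field_simp; ring
  have h2 : 1 - 1 / (2 * x + 1) = 2 * x / (2 * x + 1) := by field_simp; ring
  rw [h1, h2, Real.log_div (by positivity) (by positivity),
    Real.log_div (by positivity) (by positivity), Real.log_mul (by norm_num) (by positivity),
    Real.log_mul (by norm_num) (by positivity)]
  ring

lemma hB_nonneg {x : ℝ} (hx : 0 < x) : 0 ≤ hB x := by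
  unfold hB
  have h1 : (1 : ℝ) / (2 * x + 1) < 1 := by
    rw [div_lt_one (by positivity)]; linarith
  have := atanh_lower (t := 1 / (2 * x + 1)) (by positivity) h1
  rw [← log_ratio hx] at this
  have h2 : (x + 1 / 2) * (2 * (1 / (2 * x + 1))) = 1 := by field_simp
  nlinarith [mul_le_mul_of_nonneg_left this (show 0 ≤ x + 1 / 2 by positivity)]

lemma hB_le {x : ℝ} (hx : 0 < x) : hB x ≤ (1 / x - 1 / (x + 1)) / 12 := by
  unfold hB
  have h1 : (1 : ℝ) / (2 * x + 1) < 1 := by
    rw [div_lt_one (by positivity)]; linarith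
  have := atanh_upper (t := 1 / (2 * x + 1)) (by positivity) h1
  rw [← log_ratio hx] at this
  have hne : (1 - (1 / (2 * x + 1)) ^ 2) = 4 * x * (x + 1) / (2 * x + 1) ^ 2 := by
    field_simp; ring
  have h2 : (x + 1 / 2) * (2 * (1 / (2 * x + 1))
      + 2 / 3 * ((1 / (2 * x + 1)) ^ 3 / (1 - (1 / (2 * x + 1)) ^ 2)))
      = 1 + (1 / x - 1 / (x + 1)) / 12 := by
    rw [hne]
    field_simp
    ring
  have h3 := mul_le_mul_of_nonneg_left this (show 0 ≤ x + 1 / 2 by positivity)
  linarith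

lemma pB_nonneg {x : ℝ} (hx : 0 < x) : 0 ≤ pB x := by
  unfold pB
  linarith [hB_le hx]

lemma d_inv {x : ℝ} (hx : x ≠ 0) : HasDerivAt (fun x : ℝ => 1 / x) (-1 / x ^ 2) x := by
  have h := hasDerivAt_inv hx
  have e : (fun x : ℝ => 1 / x) = (fun x : ℝ => x⁻¹) := by funext y; rw [one_div]
  rw [e]
  refine h.congr_deriv ?_
  rw [neg_div, one_div]

lemma d_inv1 {x : ℝ} (hx : x + 1 ≠ 0) :
    HasDerivAt (fun x : ℝ => 1 / (x + 1)) (-1 / (x + 1) ^ 2) x := by
  have h1 : HasDerivAt (fun x : ℝ => x + 1) 1 x := (hasDerivAt_id x).add_const 1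
  have h := (d_inv hx).comp x h1
  refine h.congr_deriv ?_
  ring

lemma hasDerivAt_hB {x : ℝ} (hx : 0 < x) :
    HasDerivAt hB (Real.log (x + 1) - Real.log x + (x + 1 / 2) * (1 / (x + 1) - 1 / x)) x := by
  unfold hB
  have h1 : HasDerivAt (fun x : ℝ => x + 1 / 2) 1 x := (hasDerivAt_id x).add_const _
  have h2 : HasDerivAt (fun x : ℝ => Real.log (x + 1)) (1 / (x + 1)) x :=
    ((hasDerivAt_id x).add_const 1).log (by simp only [id]; linarith)
  have h3 : HasDerivAt (fun x : ℝ => Real.log x) (1 / x) x := by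
    simpa using Real.hasDerivAt_log hx.ne'
  refine ((h1.mul (h2.sub h3)).sub_const 1).congr_deriv ?_
  simp only [Pi.sub_apply]
  ring

lemma hasDerivAt_hB' {x : ℝ} (hx : 0 < x) :
    HasDerivAt (fun x : ℝ => Real.log (x + 1) - Real.log x + (x + 1 / 2) * (1 / (x + 1) - 1 / x))
      (1 / (2 * x ^ 2 * (x + 1) ^ 2)) x := by
  have hx1 : x + 1 ≠ 0 := by linarith
  have h1 : HasDerivAt (fun x : ℝ => x + 1 / 2) 1 x := (hasDerivAt_id x).add_const _
  have h2 : HasDerivAt (fun x : ℝ => Real.log (x + 1)) (1 / (x + 1)) x :=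
    ((hasDerivAt_id x).add_const 1).log (by simp only [id]; linarith)
  have h3 : HasDerivAt (fun x : ℝ => Real.log x) (1 / x) x := by
    simpa using Real.hasDerivAt_log hx.ne'
  have h4 : HasDerivAt (fun x : ℝ => 1 / (x + 1)) (-1 / (x + 1) ^ 2) x := d_inv1 hx1
  have h5 : HasDerivAt (fun x : ℝ => 1 / x) (-1 / x ^ 2) x := d_inv hx.ne'
  refine ((h2.sub h3).add (h1.mul (h4.sub h5))).congr_deriv ?_
  simp only [Pi.sub_apply]
  field_simp
  ring

lemma deriv2_hB {x : ℝ} (hx : 0 < x) : (deriv^[2] hB) x = 1 / (2 * x ^ 2 * (x + 1) ^ 2) := by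
  have h1 : deriv hB =ᶠ[𝓝 x]
      (fun x : ℝ => Real.log (x + 1) - Real.log x + (x + 1 / 2) * (1 / (x + 1) - 1 / x)) := by
    filter_upwards [lt_mem_nhds hx] with y hy
    exact (hasDerivAt_hB hy).deriv
  simp only [Function.iterate_succ, Function.iterate_zero, Function.comp_apply, id]
  rw [h1.deriv_eq]
  exact (hasDerivAt_hB' hx).deriv

lemma strictConvexOn_hB : StrictConvexOn ℝ (Ioi 0) hB := by
  refine strictConvexOn_of_deriv2_pos' (convex_Ioi 0) ?_ ?_
  · exact fun x hx => (hasDerivAt_hB hx).continuousAt.continuousWithinAt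
  · intro x hx
    rw [deriv2_hB hx]
    have : 0 < x := hx
    positivity

lemma hasDerivAt_pB {x : ℝ} (hx : 0 < x) :
    HasDerivAt pB ((-1 / x ^ 2 - -1 / (x + 1) ^ 2) / 12
      - (Real.log (x + 1) - Real.log x + (x + 1 / 2) * (1 / (x + 1) - 1 / x))) x := by
  unfold pB
  have hx1 : x + 1 ≠ 0 := by linarith
  have h4 : HasDerivAt (fun x : ℝ => 1 / (x + 1)) (-1 / (x + 1) ^ 2) x := d_inv1 hx1
  have h5 : HasDerivAt (fun x : ℝ => 1 / x) (-1 / x ^ 2) x := d_inv hx.ne'
  exact ((h5.sub h4).div_const 12).sub (hasDerivAt_hB hx)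

lemma d_invsq {x : ℝ} (hx : x ≠ 0) : HasDerivAt (fun x : ℝ => -1 / x ^ 2) (2 / x ^ 3) x := by
  have h1 : HasDerivAt (fun x : ℝ => x ^ 2) (2 * x) x := by
    simpa using hasDerivAt_pow 2 x
  have h2 : HasDerivAt (fun _ : ℝ => (-1 : ℝ)) 0 x := hasDerivAt_const x (-1)
  refine (h2.div h1 (pow_ne_zero 2 hx)).congr_deriv ?_
  field_simp
  ring

lemma hasDerivAt_pB' {x : ℝ} (hx : 0 < x) :
    HasDerivAt (fun x : ℝ => (-1 / x ^ 2 - -1 / (x + 1) ^ 2) / 12
      - (Real.log (x + 1) - Real.log x + (x + 1 / 2) * (1 / (x + 1) - 1 / x)))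
      (1 / (6 * x ^ 3 * (x + 1) ^ 3)) x := by
  have hx1 : x + 1 ≠ 0 := by linarith
  have h5 : HasDerivAt (fun x : ℝ => -1 / x ^ 2) (2 / x ^ 3) x := d_invsq hx.ne'
  have h4 : HasDerivAt (fun x : ℝ => -1 / (x + 1) ^ 2) (2 / (x + 1) ^ 3) x := by
    have h1 : HasDerivAt (fun x : ℝ => x + 1) 1 x := (hasDerivAt_id x).add_const 1
    exact ((d_invsq hx1).comp x h1).congr_deriv (mul_one _)
  refine (((h5.sub h4).div_const 12).sub (hasDerivAt_hB' hx)).congr_deriv ?_
  field_simp
  ring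

lemma deriv2_pB {x : ℝ} (hx : 0 < x) : (deriv^[2] pB) x = 1 / (6 * x ^ 3 * (x + 1) ^ 3) := by
  have h1 : deriv pB =ᶠ[𝓝 x]
      (fun x : ℝ => (-1 / x ^ 2 - -1 / (x + 1) ^ 2) / 12
      - (Real.log (x + 1) - Real.log x + (x + 1 / 2) * (1 / (x + 1) - 1 / x))) := by
    filter_upwards [lt_mem_nhds hx] with y hy
    exact (hasDerivAt_pB hy).deriv
  simp only [Function.iterate_succ, Function.iterate_zero, Function.comp_apply, id]
  rw [h1.deriv_eq]
  exact (hasDerivAt_pB' hx).deriv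

lemma strictConvexOn_pB : StrictConvexOn ℝ (Ioi 0) pB := by
  refine strictConvexOn_of_deriv2_pos' (convex_Ioi 0) ?_ ?_
  · exact fun x hx => (hasDerivAt_pB hx).continuousAt.continuousWithinAt
  · intro x hx
    rw [deriv2_pB hx]
    have : 0 < x := hx
    positivity

/-- `hB` is decreasing. -/
lemma hB_antitone : AntitoneOn hB (Ioi 0) := by
  refine antitoneOn_of_deriv_nonpos (convex_Ioi 0) ?_ ?_ ?_
  · exact fun x hx => (hasDerivAt_hB hx).continuousAt.continuousWithinAt
  · intro x hx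
    rw [interior_Ioi] at hx
    exact (hasDerivAt_hB hx).differentiableAt.differentiableWithinAt
  · intro x hx
    rw [interior_Ioi] at hx
    have hx0 : 0 < x := hx
    rw [(hasDerivAt_hB hx).deriv]
    have h1 : (1 : ℝ) / (2 * x + 1) < 1 := by
      rw [div_lt_one (by positivity)]; linarith
    have := atanh_upper (t := 1 / (2 * x + 1)) (by positivity) h1
    rw [← log_ratio hx] at this
    have hne : (1 - (1 / (2 * x + 1)) ^ 2) = 4 * x * (x + 1) / (2 * x + 1) ^ 2 := by
      field_simp; ring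
    have h2 : (2 * (1 / (2 * x + 1))
        + 2 / 3 * ((1 / (2 * x + 1)) ^ 3 / (1 - (1 / (2 * x + 1)) ^ 2)))
        + (x + 1 / 2) * (1 / (x + 1) - 1 / x)
        = - (1 / (3 * x * (x + 1) * (2 * x + 1))) := by
      rw [hne]
      field_simp
      ring
    have h3 : 0 < 1 / (3 * x * (x + 1) * (2 * x + 1)) := by positivity
    linarith

end LH.Binet
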