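import Pool.Agent.Work.MP_1c7b0d_gt_helper74.Binet1

/-!
Binet function, part 2: the sum of the Gudermann series equals
`log Gamma u - (u-1/2) log u + u - (1/2) log (2 pi)`.
-/

open Real Set Filter Topology

namespace LH.Binet

/-- the Binet function -/
noncomputable def mu (u : ℝ) : ℝ :=
  Real.log (Real.Gamma u) - (u - 1 / 2) * Real.log u + u - Real.log (2 * π) / 2

/-- the Gudermann series -/
noncomputable def SB (x : ℝ) : ℝ := ∑' k : ℕ, hB (x + k)

lemma hasSum_tele {x : ℝ} (hx : 0 < x) :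
    HasSum (fun k : ℕ => (1 / (x + k) - 1 / (x + k + 1)) / 12) (1 / x / 12) := by
  rw [hasSum_iff_tendsto_nat_of_nonneg]
  · have h1 : ∀ n : ℕ, ∑ k ∈ Finset.range n, (1 / (x + k) - 1 / (x + k + 1)) / 12
        = (1 / x - 1 / (x + n)) / 12 := by
      intro n
      induction n with
      | zero => simp
      | succ n ih =>
        rw [Finset.sum_range_succ, ih]
        push_cast
        rw [show x + ((n : ℝ) + 1) = x + n + 1 by ring]
        ring
    simp_rw [h1]
    have h2 : Tendsto (fun n : ℕ => 1 / (x + (n : ℝ))) atTop (𝓝 0) := by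
      have h3 : Tendsto (fun n : ℕ => x + (n : ℝ)) atTop atTop :=
        tendsto_atTop_add_const_left _ _ tendsto_natCast_atTop_atTop
      have h4 := tendsto_inv_atTop_zero.comp h3
      refine h4.congr fun n => ?_
      simp [one_div]
    have h4 := (tendsto_const_nhds (x := 1 / x)).sub h2
    have h5 := h4.div_const 12
    simpa using h5
  · intro k
    have hk : (0 : ℝ) ≤ k := Nat.cast_nonneg k
    have h1 : 1 / (x + k + 1) ≤ 1 / (x + k) :=
      one_div_le_one_div_of_le (by linarith) (by linarith)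
    linarith

lemma pos_add {x : ℝ} (hx : 0 < x) (k : ℕ) : 0 < x + k := by
  have hk : (0 : ℝ) ≤ k := Nat.cast_nonneg k
  linarith

lemma summable_hB {x : ℝ} (hx : 0 < x) : Summable (fun k : ℕ => hB (x + k)) :=
  Summable.of_nonneg_of_le (fun k => hB_nonneg (pos_add hx k))
    (fun k => hB_le (pos_add hx k)) (hasSum_tele hx).summable

lemma hasSum_pB {x : ℝ} (hx : 0 < x) :
    HasSum (fun k : ℕ => pB (x + k)) (1 / x / 12 - SB x) := by
  have := (hasSum_tele hx).sub (summable_hB hx).hasSum
  exact this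

lemma SB_nonneg {x : ℝ} (hx : 0 < x) : 0 ≤ SB x :=
  tsum_nonneg fun k => hB_nonneg (pos_add hx k)

lemma SB_le {x : ℝ} (hx : 0 < x) : SB x ≤ 1 / x / 12 := by
  have := (hasSum_pB hx).nonneg (fun k => pB_nonneg (pos_add hx k))
  linarith

lemma SB_succ {x : ℝ} (hx : 0 < x) : SB x = hB x + SB (x + 1) := by
  unfold SB
  rw [(summable_hB hx).tsum_eq_zero_add]
  simp only [Nat.cast_zero, add_zero]
  congr 1
  refine tsum_congr fun k => ?_
  push_cast
  congr 1
  ring

lemma strictConvexOn_tsum {f : ℝ → ℝ} (hf : StrictConvexOn ℝ (Ioi 0) f)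
    (hs : ∀ x : ℝ, 0 < x → Summable fun k : ℕ => f (x + k)) :
    StrictConvexOn ℝ (Ioi 0) (fun x => ∑' k : ℕ, f (x + k)) := by
  refine ⟨convex_Ioi 0, ?_⟩
  intro x hx y hy hxy a b ha hb hab
  have hx0 : 0 < x := hx
  have hy0 : 0 < y := hy
  simp only [smul_eq_mul]
  rw [← tsum_mul_left, ← tsum_mul_left,
    ← ((hs x hx0).mul_left a).tsum_add ((hs y hy0).mul_left b)]
  have hlt : ∀ k : ℕ, f (a * x + b * y + k) < a * f (x + k) + b * f (y + k) := by
    intro k
    have h := hf.2 (show x + (k : ℝ) ∈ Ioi (0 : ℝ) from pos_add hx0 k)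
      (show y + (k : ℝ) ∈ Ioi (0 : ℝ) from pos_add hy0 k)
      (fun h => hxy (by linarith)) ha hb hab
    simp only [smul_eq_mul] at h
    have e : a * (x + (k : ℝ)) + b * (y + (k : ℝ)) = a * x + b * y + k := by
      linear_combination (k : ℝ) * hab
    rw [e] at h
    exact h
  have hxy0 : 0 < a * x + b * y := by positivity
  exact Summable.tsum_lt_tsum (i := 0) (fun k => (hlt k).le) (hlt 0) (hs _ hxy0)
    (((hs x hx0).mul_left a).add ((hs y hy0).mul_left b))

lemma strictConvexOn_SB : StrictConvexOn ℝ (Ioi 0) SB :=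
  strictConvexOn_tsum strictConvexOn_hB fun _ hx => summable_hB hx

lemma strictConvexOn_WB : StrictConvexOn ℝ (Ioi 0) (fun x => 1 / x / 12 - SB x) := by
  have h := strictConvexOn_tsum strictConvexOn_pB fun _ hx => (hasSum_pB hx).summable
  refine h.congr ?_
  intro x hx
  exact (hasSum_pB hx).tsum_eq

lemma SB_antitone : AntitoneOn SB (Ioi 0) := by
  intro x hx y hy hxy
  have hx0 : 0 < x := hx
  have hy0 : 0 < y := hy
  refine (summable_hB hy0).tsum_le_tsum (fun k => ?_) (summable_hB hx0)
  exact hB_antitone (pos_add hx0 k) (pos_add hy0 k) (by linarith)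

lemma log_stirling_diff (n : ℕ) :
    Real.log (Stirling.stirlingSeq (n + 1)) - Real.log (Stirling.stirlingSeq (n + 2))
      = hB (1 + n) := by
  rw [Stirling.log_stirlingSeq_formula, Stirling.log_stirlingSeq_formula]
  have hn : (0 : ℝ) < (n : ℝ) + 1 := by positivity
  have hn2 : (0 : ℝ) < (n : ℝ) + 2 := by positivity
  have h1 : Real.log ((n + 2).factorial : ℝ) = Real.log ((n : ℝ) + 2)
      + Real.log ((n + 1).factorial : ℝ) := by
    rw [Nat.factorial_succ (n + 1)]
    push_cast
    rw [Real.log_mul (by positivity) (by positivity)]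
    ring_nf
  rw [h1]
  unfold hB
  push_cast
  rw [Real.log_mul (by norm_num) (by positivity), Real.log_mul (by norm_num) (by positivity),
    Real.log_div (by positivity) (Real.exp_pos 1).ne', Real.log_div (by positivity)
    (Real.exp_pos 1).ne', Real.log_exp]
  rw [show (1 : ℝ) + n + 1 = n + 2 by ring, show (1 : ℝ) + n = n + 1 by ring]
  ring

lemma SB_one : SB 1 = 1 - Real.log (2 * π) / 2 := by
  have h := (summable_hB (x := 1) one_pos).hasSum
  have h1 : ∀ n : ℕ, ∑ k ∈ Finset.range n, hB (1 + (k : ℝ))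
      = Real.log (Stirling.stirlingSeq 1) - Real.log (Stirling.stirlingSeq (n + 1)) := by
    intro n
    induction n with
    | zero => simp
    | succ n ih =>
      rw [Finset.sum_range_succ, ih, ← log_stirling_diff]
      ring
  have h2 := h.tendsto_sum_nat
  simp_rw [h1] at h2
  have h3 : Tendsto (fun n : ℕ => Real.log (Stirling.stirlingSeq (n + 1))) atTop
      (𝓝 (Real.log (√π))) := by
    have h4 := Stirling.tendsto_stirlingSeq_sqrt_pi.comp (tendsto_add_atTop_nat 1)
    exact h4.log (by positivity)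
  have h5 := tendsto_nhds_unique h2 ((tendsto_const_nhds).sub h3)
  have h6 : Real.log (Stirling.stirlingSeq 1) = 1 - Real.log 2 / 2 := by
    rw [Stirling.stirlingSeq_one, Real.log_div (Real.exp_pos 1).ne' (by positivity),
      Real.log_exp, Real.log_sqrt (by norm_num)]
  rw [h6, Real.log_sqrt (by positivity)] at h5
  unfold SB
  rw [h5, Real.log_mul (by norm_num) (by positivity)]
  ring

/-- exponent in Stirling's formula -/
noncomputable def stE (x : ℝ) : ℝ := (x - 1 / 2) * Real.log x - x + Real.log (2 * π) / 2 + SB x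

lemma convexOn_stE : ConvexOn ℝ (Ioi 0) stE := by
  have h1 : ConvexOn ℝ (Ioi (0 : ℝ)) (fun x : ℝ => x * Real.log x) :=
    Real.convexOn_mul_log.subset Ioi_subset_Ici_self (convex_Ioi 0)
  have h2 : ConvexOn ℝ (Ioi (0 : ℝ)) (fun x : ℝ => -(1 / 2 * Real.log x)) := by
    have h := strictConcaveOn_log_Ioi.concaveOn.smul (show (0 : ℝ) ≤ 1 / 2 by norm_num)
    exact h.neg
  have h3 : ConvexOn ℝ (Ioi (0 : ℝ)) (fun x : ℝ => -x) := by
    refine ⟨convex_Ioi 0, ?_⟩
    intro x _ y _ a b _ _ _
    simp only [smul_eq_mul]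
    apply le_of_eq
    ring
  have h4 := (((h1.add h2).add h3).add_const (Real.log (2 * π) / 2)).add strictConvexOn_SB.convexOn
  refine h4.congr ?_
  intro x _
  simp only [Pi.add_apply, stE]
  ring

lemma gamma_eq {x : ℝ} (hx : 0 < x) : Real.exp (stE x) = Real.Gamma x := by
  have h := Real.eq_Gamma_of_log_convex (f := fun x => Real.exp (stE x)) ?_ ?_ ?_ ?_
  · exact h hx
  · refine convexOn_stE.congr ?_
    intro x _
    simp
  · intro y hy
    have e : y * Real.exp (stE y) = Real.exp (Real.log y + stE y) := by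
      rw [Real.exp_add, Real.exp_log hy]
    simp only [e]
    congr 1
    unfold stE
    rw [SB_succ hy]
    unfold hB
    ring
  · intro y _
    exact Real.exp_pos _
  · simp only [stE, SB_one, Real.log_one]
    have : ((1 : ℝ) - 1 / 2) * 0 - 1 + Real.log (2 * π) / 2 + (1 - Real.log (2 * π) / 2) = 0 := by
      ring
    rw [this, Real.exp_zero]

lemma mu_eq {x : ℝ} (hx : 0 < x) : mu x = SB x := by
  unfold mu
  rw [← gamma_eq hx, Real.log_exp]
  unfold stE
  ring

lemma mu_nonneg {x : ℝ} (hx : 0 < x) : 0 ≤ mu x := by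
  rw [mu_eq hx]; exact SB_nonneg hx

lemma mu_le {x : ℝ} (hx : 0 < x) : mu x ≤ 1 / x / 12 := by
  rw [mu_eq hx]; exact SB_le hx

lemma mu_succ {x : ℝ} (hx : 0 < x) : mu x = hB x + mu (x + 1) := by
  rw [mu_eq hx, mu_eq (by linarith), SB_succ hx]

lemma strictConvexOn_mu : StrictConvexOn ℝ (Ioi 0) mu :=
  strictConvexOn_SB.congr fun _ hx => (mu_eq hx).symm

lemma strictConvexOn_Wmu : StrictConvexOn ℝ (Ioi 0) (fun x => 1 / x / 12 - mu x) :=
  strictConvexOn_WB.congr fun x hx => by
    show 1 / x / 12 - SB x = 1 / x / 12 - mu x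
    rw [mu_eq hx]

lemma mu_antitone : AntitoneOn mu (Ioi 0) :=
  SB_antitone.congr fun _ hx => (mu_eq hx).symm

lemma differentiableAt_mu {x : ℝ} (hx : 0 < x) : DifferentiableAt ℝ mu x := by
  unfold mu
  have h1 : DifferentiableAt ℝ Real.Gamma x := by
    refine Real.differentiableAt_Gamma ?_
    intro m
    have : (0 : ℝ) ≤ m := Nat.cast_nonneg m
    linarith
  have h2 : DifferentiableAt ℝ (fun u => Real.log (Real.Gamma u)) x :=
    h1.log (Real.Gamma_pos_of_pos hx).ne'
  have h3 : DifferentiableAt ℝ (fun u : ℝ => Real.log u) x := Real.differentiableAt_log hx.ne'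
  have h4 : DifferentiableAt ℝ (fun u : ℝ => u - 1 / 2) x := differentiableAt_id.sub_const _
  exact ((h2.sub (h4.mul h3)).add differentiableAt_id).sub_const _

end LH.Binet
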