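import Pool.Agent.Work.MP_1c7b0d_gt_helper74.Binet2

/-!
Binet function, part 3: the scalar inequality.
-/

open Real Set Filter Topology

namespace LH.Binet

lemma deriv_mu_nonpos {m : ℝ} (hm : 0 < m) : deriv mu m ≤ 0 := by
  have h := mu_antitone.derivWithin_nonpos (x := m)
  rwa [(differentiableAt_mu hm).derivWithin (isOpen_Ioi.uniqueDiffWithinAt hm)] at h

lemma bregman_aux {m u : ℝ} (hm : 0 < m) (hu : 0 < u) :
    (u / m - 1) ^ 2 / (12 * u) = 1 / u / 12 - 1 / m / 12 - (-1 / m ^ 2 / 12) * (u - m) := by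
  field_simp
  ring

/-- Bregman inequality for `mu`, strict form. -/
lemma bregman_lt {m u : ℝ} (hm : 0 < m) (hu : 0 < u) (hne : u ≠ m) :
    mu u - mu m - deriv mu m * (u - m) < (u / m - 1) ^ 2 / (12 * u) := by
  have hd : HasDerivAt (fun x => 1 / x / 12 - mu x) (-1 / m ^ 2 / 12 - deriv mu m) m :=
    ((d_inv hm.ne').div_const 12).sub (differentiableAt_mu hm).hasDerivAt
  have h := strictConvexOn_Wmu
  have key : 1 / m / 12 - mu m + (-1 / m ^ 2 / 12 - deriv mu m) * (u - m) < 1 / u / 12 - mu u := by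
    rcases lt_or_gt_of_ne hne with h1 | h1
    · have := h.slope_lt_of_hasDerivAt hu hm h1 hd
      rw [slope_def_field, div_lt_iff₀ (by linarith)] at this
      linarith
    · have := h.lt_slope_of_hasDerivAt hm hu h1 hd
      rw [slope_def_field, lt_div_iff₀ (by linarith)] at this
      linarith
  rw [bregman_aux hm hu]
  linarith

/-- Bregman inequality for `mu`. -/
lemma bregman {m u : ℝ} (hm : 0 < m) (hu : 0 < u) :
    mu u - mu m - deriv mu m * (u - m) ≤ (u / m - 1) ^ 2 / (12 * u) := by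
  by_cases h : u = m
  · subst h
    have : (0 : ℝ) ≤ (u / u - 1) ^ 2 / (12 * u) := by positivity
    simpa using this
  · exact (bregman_lt hm hu h).le

/-- `log x ≤ log a + x/a - 1`. -/
lemma log_tangent {a x : ℝ} (ha : 0 < a) (hx : 0 < x) :
    Real.log x ≤ Real.log a + x / a - 1 := by
  have h := Real.log_le_sub_one_of_pos (div_pos hx ha)
  rw [Real.log_div hx.ne' ha.ne'] at h
  linarith

lemma hB_lower {x : ℝ} (hx : 0 < x) : 2 / (2 * x + 1) ≤ Real.log (x + 1) - Real.log x := by
  have h := hB_nonneg hx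
  unfold hB at h
  rw [div_le_iff₀ (by positivity)]
  linarith

/-- upper bound for `log 1.29...`: `log(1+x) - log x ≤ 2/(2x+1)(1 + 1/(12 x(x+1)))` -/
lemma hB_upper {x : ℝ} (hx : 0 < x) :
    Real.log (x + 1) - Real.log x ≤ (1 + (1 / x - 1 / (x + 1)) / 12) * (2 / (2 * x + 1)) := by
  have h := hB_le hx
  unfold hB at h
  have h1 : Real.log (x + 1) - Real.log x
      = ((x + 1 / 2) * (Real.log (x + 1) - Real.log x)) * (2 / (2 * x + 1)) := by
    field_simp
  rw [h1]
  refine mul_le_mul_of_nonneg_right ?_ (by positivity)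
  linarith

/-- `log (10/3) ≤ 1.2041`. -/
lemma log_num1 : -Real.log (3 / 10) ≤ 1.2041 := by
  -- 10/3 = (4/3) (5/4) 2
  have h1 := hB_upper (x := 3) (by norm_num)
  have h2 := hB_upper (x := 4) (by norm_num)
  have h3 := Real.log_two_lt_d9
  have e : -Real.log (3 / 10) = (Real.log (3 + 1) - Real.log 3) + (Real.log (4 + 1) - Real.log 4)
      + Real.log 2 := by
    have e1 : Real.log (3 / 10) = Real.log 3 - Real.log 10 :=
      Real.log_div (by norm_num) (by norm_num)
    have e2 : Real.log 10 = Real.log 2 + Real.log 5 := by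
      rw [← Real.log_mul (by norm_num) (by norm_num)]; norm_num
    rw [e1, e2]
    norm_num
    ring
  rw [e]
  norm_num at h1 h2 ⊢
  linarith

/-- `log 1.3 ≤ 0.2625`. -/
lemma log_num2 : Real.log (13 / 10) ≤ 0.2625 := by
  have h1 := hB_upper (x := 10 / 3) (by norm_num)
  have e : Real.log (10 / 3 + 1) - Real.log (10 / 3) = Real.log (13 / 10) := by
    rw [← Real.log_div (by norm_num) (by norm_num)]; norm_num
  rw [e] at h1
  norm_num at h1 ⊢
  linarith

/-- for `u ≤ 3/10` -/
lemma mu_small {u : ℝ} (hu : 0 < u) (hu3 : u ≤ 3 / 10) :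
    mu u < (1 / 2) * (u - 1 - Real.log u) := by
  have h1 : mu u = hB u + mu (u + 1) := mu_succ hu
  have h2 : mu (u + 1) ≤ 1 / (u + 1) / 12 := mu_le (by linarith)
  -- -u log u ≤ u (-log a) + a - u with a = 3/10
  have h3 : -(u * Real.log u) ≤ u * (-Real.log (3 / 10)) + 3 / 10 - u := by
    have := log_tangent (a := u) (x := 3 / 10) hu (by norm_num)
    have h4 := mul_le_mul_of_nonneg_left this hu.le
    have h5 : u * (Real.log u + 3 / 10 / u - 1) = u * Real.log u + 3 / 10 - u := by
      field_simp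
    rw [h5] at h4
    linarith
  have h4 : Real.log (u + 1) ≤ Real.log (13 / 10) + (u + 1) / (13 / 10) - 1 :=
    log_tangent (by norm_num) (by linarith)
  have n1 := log_num1
  have n2 := log_num2
  have h5 : -(u * Real.log u) ≤ u * 1.2041 + 3 / 10 - u := by nlinarith
  have h6 : Real.log (u + 1) ≤ 0.2625 + (u + 1) / (13 / 10) - 1 := by linarith
  have h7 : (u + 1 / 2) * Real.log (u + 1) ≤ (u + 1 / 2) * (0.2625 + (u + 1) / (13 / 10) - 1) :=
    mul_le_mul_of_nonneg_left h6 (by linarith)
  have h8 : 1 / (u + 1) / 12 ≤ (1 - u + u ^ 2) / 12 := by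
    rw [div_le_div_iff_of_pos_right (by norm_num), div_le_iff₀ (by linarith)]
    nlinarith [mul_pos hu hu, mul_pos (mul_pos hu hu) hu]
  have h9 : mu u ≤ (u + 1 / 2) * Real.log (u + 1) - u * Real.log u - 1 / 2 * Real.log u - 1
      + (1 - u + u ^ 2) / 12 := by
    rw [h1]
    unfold hB
    linarith
  norm_num at h5 h7 h8 h9 ⊢
  nlinarith [mul_pos hu hu]

/-- `T(e) = 1.2(e-1-log e) - (e-1)^2 ≥ 0` on `(0,1/3]`. -/
lemma regA1 {e : ℝ} (he : 0 < e) (he3 : e ≤ 1 / 3) :
    (e - 1) ^ 2 ≤ 1.2 * (e - 1 - Real.log e) := by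
  -- tangent at 1/3 :  -log e ≥ log 3 + 1 - 3 e
  have h1 : Real.log e ≤ Real.log (1 / 3) + e / (1 / 3) - 1 := log_tangent (by norm_num) he
  have h2 : Real.log (1 / 3) = -Real.log 3 := by
    rw [one_div, Real.log_inv]
  have h3 : (1.09 : ℝ) ≤ Real.log 3 := by
    have h4 := hB_lower (x := 2) (by norm_num)
    have h5 := Real.log_two_gt_d9
    norm_num at h4 ⊢
    linarith
  rw [h2] at h1
  norm_num at h1 ⊢
  nlinarith

/-- `R(e) ≥ 0` for `e ≥ 1/3`. -/
lemma regA2 {e : ℝ} (he3 : 1 / 3 ≤ e) :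
    (e - 1) ^ 2 ≤ 4 * e * (e - 1 - Real.log e) := by
  have he : 0 < e := by linarith
  have hder : ∀ x : ℝ, 0 < x → HasDerivAt (fun s : ℝ => 3 / 4 * s - 1 / 2 - 1 / 4 * (1 / s)
      - Real.log s) (3 / 4 * 1 - 1 / 4 * (-1 / x ^ 2) - 1 / x) x := by
    intro x hx
    have a1 : HasDerivAt (fun s : ℝ => 3 / 4 * s - 1 / 2) (3 / 4 * 1) x :=
      ((hasDerivAt_id x).const_mul (3 / 4)).sub_const _
    have a2 : HasDerivAt (fun s : ℝ => 1 / 4 * (1 / s)) (1 / 4 * (-1 / x ^ 2)) x :=
      (d_inv hx.ne').const_mul _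
    have a3 : HasDerivAt (fun s : ℝ => Real.log s) (1 / x) x := by
      simpa using Real.hasDerivAt_log hx.ne'
    exact (a1.sub a2).sub a3
  have e1 : ∀ x : ℝ, 0 < x → 3 / 4 * 1 - 1 / 4 * (-1 / x ^ 2) - 1 / x
      = (3 * x - 1) * (x - 1) / (4 * x ^ 2) := by
    intro x hx
    field_simp
    ring
  have key : 0 ≤ 3 / 4 * e - 1 / 2 - 1 / 4 * (1 / e) - Real.log e := by
    rcases le_total e 1 with h | h
    · have hanti : AntitoneOn (fun s : ℝ => 3 / 4 * s - 1 / 2 - 1 / 4 * (1 / s)
          - Real.log s) (Icc (1 / 3) 1) := by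
        refine antitoneOn_of_deriv_nonpos (convex_Icc _ _) ?_ ?_ ?_
        · intro x hx
          exact (hder x (by linarith [hx.1])).continuousAt.continuousWithinAt
        · intro x hx
          rw [interior_Icc] at hx
          exact (hder x (by linarith [hx.1])).differentiableAt.differentiableWithinAt
        · intro x hx
          rw [interior_Icc] at hx
          have hx0 : 0 < x := by linarith [hx.1]
          rw [(hder x hx0).deriv, e1 x hx0]
          apply div_nonpos_of_nonpos_of_nonneg _ (by positivity)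
          nlinarith [hx.1, hx.2]
      have := hanti ⟨he3, h⟩ (show (1 : ℝ) ∈ Icc (1 / 3) 1 by constructor <;> norm_num) h
      norm_num at this
      norm_num
      linarith
    · have hmono : MonotoneOn (fun s : ℝ => 3 / 4 * s - 1 / 2 - 1 / 4 * (1 / s)
          - Real.log s) (Ici 1) := by
        refine monotoneOn_of_deriv_nonneg (convex_Ici _) ?_ ?_ ?_
        · intro x hx
          have hx1 : (1 : ℝ) ≤ x := hx
          exact (hder x (by linarith)).continuousAt.continuousWithinAt
        · intro x hx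
          rw [interior_Ici] at hx
          have hx1 : (1 : ℝ) < x := hx
          exact (hder x (by linarith)).differentiableAt.differentiableWithinAt
        · intro x hx
          rw [interior_Ici] at hx
          have hx1 : (1 : ℝ) < x := hx
          have hx0 : 0 < x := by linarith
          rw [(hder x hx0).deriv, e1 x hx0]
          apply div_nonneg _ (by positivity)
          nlinarith
      have := hmono (show (1 : ℝ) ∈ Ici (1 : ℝ) by simp) (show e ∈ Ici (1 : ℝ) from h) h
      norm_num at this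
      norm_num
      linarith
  have h2 : 4 * e * (e - 1 - Real.log e) - (e - 1) ^ 2
      = 4 * e * (3 / 4 * e - 1 / 2 - 1 / 4 * (1 / e) - Real.log e) := by
    field_simp
    ring
  have h3 : 0 ≤ 4 * e * (3 / 4 * e - 1 / 2 - 1 / 4 * (1 / e) - Real.log e) := by positivity
  linarith

lemma log_bd {e : ℝ} (he : 0 < e) : 0 ≤ e - 1 - Real.log e := by
  have := Real.log_le_sub_one_of_pos he
  linarith

lemma regA {u e : ℝ} (hu : 3 / 10 ≤ u) (he : 0 < e) (heu : e ≤ u) :
    (e - 1) ^ 2 ≤ 4 * u * (e - 1 - Real.log e) := by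
  have h0 := log_bd he
  rcases le_total e (1 / 3) with h | h
  · have h1 := regA1 he h
    nlinarith
  · have h1 := regA2 h
    nlinarith

/-- **The scalar inequality.** -/
theorem scalar {m c u : ℝ} (hm : 1 ≤ m) (hc0 : 0 < c) (hc1 : c ≤ 1) (hu : 0 < u) :
    mu u - mu m - deriv mu m * (u - m)
      ≤ 1 / 2 * (c * u - 1 - Real.log (c * u)) + u / 4 * (c - 1 / m) ^ 2 := by
  have hm0 : 0 < m := by linarith
  have he : 0 < c * u := by positivity
  have heu : c * u ≤ u := by nlinarith
  rcases le_total u (3 / 10) with h | h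
  · have h1 := mu_small hu h
    have h2 : Real.log u - Real.log (c * u) = -Real.log c := by
      rw [Real.log_mul hc0.ne' hu.ne']; ring
    have h3 : Real.log c ≤ c - 1 := Real.log_le_sub_one_of_pos hc0
    have h4 : 0 ≤ mu m := mu_nonneg hm0
    have h5 : 0 ≤ deriv mu m * (u - m) :=
      mul_nonneg_of_nonpos_of_nonpos (deriv_mu_nonpos hm0) (by linarith)
    have h6 : 0 ≤ u / 4 * (c - 1 / m) ^ 2 := by positivity
    have h7 : u - c * u ≤ - Real.log c := by nlinarith
    linarith
  · have h1 := bregman hm0 hu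
    have h2 := regA h he heu
    have h3 : (u / m - 1) ^ 2 / (12 * u) ≤ (c * u - 1) ^ 2 / (8 * u)
        + u / 4 * (c - 1 / m) ^ 2 := by
      have e1 : (c * u - 1) ^ 2 / (8 * u) + u / 4 * (c - 1 / m) ^ 2
          - (u / m - 1) ^ 2 / (12 * u)
          = ((c * u - 1) + 2 * (c * u - u / m)) ^ 2 / (24 * u) := by
        field_simp
        ring
      have e2 : 0 ≤ ((c * u - 1) + 2 * (c * u - u / m)) ^ 2 / (24 * u) := by positivity
      linarith
    have h4 : (c * u - 1) ^ 2 / (8 * u) ≤ 1 / 2 * (c * u - 1 - Real.log (c * u)) := by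
      rw [div_le_iff₀ (by positivity)]
      linarith
    linarith

/-- equality case of the scalar inequality -/
theorem scalar_lt {m c u : ℝ} (hm : 1 ≤ m) (hc0 : 0 < c) (hc1 : c ≤ 1) (hu : 0 < u)
    (hne : ¬ (u = m ∧ c * u = 1)) :
    mu u - mu m - deriv mu m * (u - m)
      < 1 / 2 * (c * u - 1 - Real.log (c * u)) + u / 4 * (c - 1 / m) ^ 2 := by
  have hm0 : 0 < m := by linarith
  have he : 0 < c * u := by positivity
  have heu : c * u ≤ u := by nlinarith
  rcases le_total u (3 / 10) with h | h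
  · have h1 := mu_small hu h
    have h2 : Real.log u - Real.log (c * u) = -Real.log c := by
      rw [Real.log_mul hc0.ne' hu.ne']; ring
    have h3 : Real.log c ≤ c - 1 := Real.log_le_sub_one_of_pos hc0
    have h4 : 0 ≤ mu m := mu_nonneg hm0
    have h5 : 0 ≤ deriv mu m * (u - m) :=
      mul_nonneg_of_nonpos_of_nonpos (deriv_mu_nonpos hm0) (by linarith)
    have h6 : 0 ≤ u / 4 * (c - 1 / m) ^ 2 := by positivity
    have h7 : u - c * u ≤ - Real.log c := by nlinarith
    linarith
  · by_cases hum : u = m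
    · have hcu : c * u ≠ 1 := fun h' => hne ⟨hum, h'⟩
      subst hum
      have h3 : Real.log (c * u) < c * u - 1 := Real.log_lt_sub_one_of_pos he hcu
      have h6 : 0 ≤ u / 4 * (c - 1 / u) ^ 2 := by positivity
      have h7 : mu u - mu u - deriv mu u * (u - u) = 0 := by ring
      rw [h7]
      linarith
    · have h1 := bregman_lt hm0 hu hum
      have h2 := regA h he heu
      have h3 : (u / m - 1) ^ 2 / (12 * u) ≤ (c * u - 1) ^ 2 / (8 * u)
          + u / 4 * (c - 1 / m) ^ 2 := by
        have e1 : (c * u - 1) ^ 2 / (8 * u) + u / 4 * (c - 1 / m) ^ 2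
            - (u / m - 1) ^ 2 / (12 * u)
            = ((c * u - 1) + 2 * (c * u - u / m)) ^ 2 / (24 * u) := by
          field_simp
          ring
        have e2 : 0 ≤ ((c * u - 1) + 2 * (c * u - u / m)) ^ 2 / (24 * u) := by positivity
        linarith
      have h4 : (c * u - 1) ^ 2 / (8 * u) ≤ 1 / 2 * (c * u - 1 - Real.log (c * u)) := by
        rw [div_le_iff₀ (by positivity)]
        linarith
      linarith

end LH.Binet
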